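import Pool.Agent.Results.MP_cd1425_an.ReiterativeSum
import Pool.Agent.Results.MP_cd1425_an.FreqUFreq
import Pool.Agent.Results.MP_cd1425_an.UniformSum

set_option autoImplicit false

namespace Pool.Agent.Results.MP_cd1425_an.AllFour

open Pool.Agent.H615R3 Filter Topology Set

/-- Complete answer to Q1, over `𝕂 = ℝ` or `ℂ`.
(1) Reiterative recurrence: yes. If `T` is a reiteratively recurrent operator on a Fréchet space
(complete metrizable topological vector space) `X`, then the `n`-fold direct sum `T ⊕ ⋯ ⊕ T` on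
`X^n` is reiteratively recurrent for every `n`.
(2) Uniform recurrence: yes, in the same generality.
(3) Frequent recurrence: no. There is a frequently recurrent operator `T` on a Banach space such
that `T ⊕ T` is not frequently recurrent.
(4) `𝒰`-frequent recurrence: no. There is a `𝒰`-frequently recurrent operator `T` on a Banach
space such that `T ⊕ T` is not `𝒰`-frequently recurrent. -/
theorem result (𝕂 : Type) [RCLike 𝕂] :
    (∀ (X : Type) [AddCommGroup X] [Module 𝕂 X] [UniformSpace X] [IsUniformAddGroup X]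
      [ContinuousSMul 𝕂 X] [CompleteSpace X] [T2Space X] [(uniformity X).IsCountablyGenerated]
      (T : X →L[𝕂] X), Dense {x : X | IsRRec T x} → ∀ n : ℕ,
        Dense {z : Fin n → X | IsRRec (fun (x : Fin n → X) (j : Fin n) => T (x j)) z}) ∧
    (∀ (X : Type) [AddCommGroup X] [Module 𝕂 X] [UniformSpace X] [IsUniformAddGroup X]
      [ContinuousSMul 𝕂 X] [CompleteSpace X] [T2Space X] [(uniformity X).IsCountablyGenerated]
      (T : X →L[𝕂] X), Dense {x : X | IsURec T x} → ∀ n : ℕ, 1 ≤ n →
        Dense {z : Fin n → X | IsURec (fun (x : Fin n → X) (j : Fin n) => T (x j)) z}) ∧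
    (∃ (X : Type) (_ : NormedAddCommGroup X) (_ : NormedSpace 𝕂 X) (_ : CompleteSpace X)
      (T : X →L[𝕂] X), Dense {x : X | IsFRec T x} ∧
        ¬ Dense {z : X × X | IsFRec (T.prodMap T) z}) ∧
    (∃ (X : Type) (_ : NormedAddCommGroup X) (_ : NormedSpace 𝕂 X) (_ : CompleteSpace X)
      (T : X →L[𝕂] X), Dense {x : X | IsUFRec T x} ∧
        ¬ Dense {z : X × X | IsUFRec (T.prodMap T) z}) := by
  refine ⟨?_, ?_, (FreqUFreq.result 𝕂).1, (FreqUFreq.result 𝕂).2⟩
  · intro X _ _ _ _ _ _ _ _ T hT n
    exact (ReiterativeSum.result.{0, 0, 0} 𝕂).1 X T hT n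
  · intro X _ _ _ _ _ _ _ _ T hT n hn
    have : Nonempty (Fin n) := ⟨⟨0, hn⟩⟩
    exact UniformSum.result (ι := Fin n) (X := fun _ => X) (fun _ => T) (fun _ => hT)

end Pool.Agent.Results.MP_cd1425_an.AllFour
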