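import Pool.Agent.TH270.Rec.Final

set_option autoImplicit false

namespace Pool.Agent.Results.MP_cd1425_an.ReiterativeSum

open Pool.Agent.H615R3 Filter Topology Set

universe u v w

/-- (1) If `T` is a reiteratively recurrent operator on a Fréchet space `X` (more generally, on a
complete metrizable topological vector space), then the direct sum `T ⊕ ⋯ ⊕ T` on `X^n` is
reiteratively recurrent, for every `n`.

(2) More generally, let `S_j` be finitely many continuous self-maps (not necessarily linear) of
complete (pseudo)metrizable uniform spaces `Y_j`, and let `y_j` be a reiteratively recurrent point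
of `S_j`. Then the point `(y_j)` is a limit of reiteratively recurrent points of the product map
`(w_j) ↦ (S_j w_j)`. -/
theorem result (𝕜 : Type u) [RCLike 𝕜] :
    (∀ (X : Type v) [AddCommGroup X] [Module 𝕜 X] [UniformSpace X] [IsUniformAddGroup X]
      [ContinuousSMul 𝕜 X] [CompleteSpace X] [(uniformity X).IsCountablyGenerated]
      (T : X →L[𝕜] X), Dense {x : X | IsRRec T x} →
        ∀ n : ℕ, Dense {z : Fin n → X | IsRRec (fun (x : Fin n → X) (j : Fin n) => T (x j)) z}) ∧
    (∀ (ι : Type w) [Finite ι] (Y : ι → Type v) [∀ j, UniformSpace (Y j)]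
      [∀ j, CompleteSpace (Y j)] [∀ j, (uniformity (Y j)).IsCountablyGenerated]
      (S : ∀ j, Y j → Y j), (∀ j, Continuous (S j)) →
        ∀ y : ∀ j, Y j, (∀ j, IsRRec (S j) (y j)) →
          y ∈ closure {z : ∀ j, Y j | IsRRec (fun (x : ∀ j, Y j) (j : ι) => S j (x j)) z}) := by
  refine ⟨?_, ?_⟩
  · intro X _ _ _ _ _ _ _ T hT n x
    rw [mem_closure_iff_nhds]
    intro U hU
    rw [nhds_pi, Filter.mem_pi'] at hU
    obtain ⟨I, V, hV, hVU⟩ := hU
    have h1 : ∀ j : Fin n, ∃ a : X, IsRRec T a ∧ V j ∈ 𝓝 a := by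
      intro j
      obtain ⟨a, ha1, ha2⟩ := hT.inter_nhds_nonempty (interior_mem_nhds.2 (hV j))
      exact ⟨a, ha1, mem_interior_iff_mem_nhds.1 ha2⟩
    choose a ha hVa using h1
    have h2 := Pool.Agent.TH270.Rec.family (ι := Fin n) (X := fun _ => X) (fun _ => ⇑T)
      (fun _ => T.continuous) a ha
    rw [mem_closure_iff_nhds] at h2
    have h3 : U ∈ 𝓝 a := by
      rw [nhds_pi]
      exact Filter.mem_of_superset (Filter.pi_mem_pi I.finite_toSet fun j _ => hVa j) hVU
    exact h2 U h3
  · intro ι _ Y _ _ _ S hS y hy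
    exact Pool.Agent.TH270.Rec.family S hS y hy

end Pool.Agent.Results.MP_cd1425_an.ReiterativeSum
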